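import Pool.Agent.Lib.MP_2c7063_coU.Union

/-!
# Parallel extensions and matroids induced by bipartite graphs
-/

namespace Pool.Agent.Lib.MP_2c7063_coU

open Set
open scoped Matroid Function
open Pool.Agent.Lib.MP_2c7063_coS (Good Rep inc IsCycleMatroid isBase_of good_dual)
open Pool.Agent.Lib.MP_2c7063_coT (small_rank)

variable {α β V : Type*}

/-- All contractions have the property `Ord`. -/
def MOrd (G : Matroid β) : Prop := ∀ X : Set β, X.Finite → Ord (G ／ X)

theorem MOrd.ord {G : Matroid β} (h : MOrd G) : Ord G := by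
  have := h ∅ finite_empty
  rwa [Matroid.contract_empty] at this

theorem MOrd.contract {G : Matroid β} (h : MOrd G) {X : Set β} (hX : X.Finite) :
    MOrd (G ／ X) := by
  intro Y hY
  rw [Matroid.contract_contract]
  exact h _ (hX.union hY)

theorem ser_single (p q : α) : Ser (fun J : Set α => J = {p} ∨ J = {q}) {p} {q} 1 (fun _ => p)
    (fun _ => q) := by
  have z0 : ∀ a : α, (fun _ : ℕ => a) '' Iio 0 = ∅ := fun a => by
    rw [image_eq_empty]; ext j; simp
  have z1 : ∀ a : α, (fun _ : ℕ => a) '' Iio 1 = {a} := fun a => by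
    ext e
    constructor
    · rintro ⟨i, _, rfl⟩; rfl
    · rintro rfl; exact ⟨0, by simp, rfl⟩
  refine ⟨?_, z1 p, ?_, z1 q, ?_⟩
  · intro i hi j hj _
    simp only [mem_Iio] at hi hj
    omega
  · intro i hi j hj _
    simp only [mem_Iio] at hi hj
    omega
  · intro i hi
    have : i = 0 ∨ i = 1 := by omega
    rcases this with rfl | rfl
    · rw [z0, z0, sdiff_empty, union_empty, sdiff_empty, union_empty]
      exact ⟨Or.inl rfl, Or.inr rfl⟩
    · rw [z1, z1, Set.sdiff_self, Set.sdiff_self, empty_union, empty_union]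
      exact ⟨Or.inr rfl, Or.inl rfl⟩

theorem comap_ser [Nonempty α] [Nonempty β] (g : α → β) (m : ℕ) : ∀ (G : Matroid β), MOrd G →
    ∀ P Q : Set α, P.Finite → Disjoint P Q → P.encard = m → InjOn g P → InjOn g Q →
    (G ↾ (g '' (P ∪ Q))).IsBase (g '' P) → (G ↾ (g '' (P ∪ Q))).IsBase (g '' Q) →
    ∃ x y, Ser (fun J => InjOn g J ∧ G.Indep (g '' J)) P Q m x y := by
  classical
  induction m with
  | zero =>
    intro G _ P Q _ _ hP _ iQ bP bQ
    have hP0 : P = ∅ := by simpa using hP
    have hQ0 : Q = ∅ := by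
      have h1 := bQ.encard_eq_eRank
      rw [← bP.encard_eq_eRank, hP0, image_empty, encard_empty, encard_eq_zero,
        image_eq_empty] at h1
      exact h1
    rw [hP0, hQ0]
    refine ⟨fun _ => Classical.arbitrary α, fun _ => Classical.arbitrary α, Ser.empty ?_ _ _⟩
    exact ⟨injOn_empty g, by rw [image_empty]; exact G.empty_indep⟩
  | succ m ih =>
    intro G hG P Q hPf hd hP iP iQ bP bQ
    by_cases hcap : Disjoint (g '' P) (g '' Q)
    · -- no parallel pairs
      have hinj : InjOn g (P ∪ Q) := by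
        intro a ha b hb hab
        rcases ha with ha | ha <;> rcases hb with hb | hb
        · exact iP ha hb hab
        · exact absurd ⟨b, hb, hab.symm⟩ (disjoint_left.1 hcap ⟨a, ha, rfl⟩)
        · exact absurd ⟨a, ha, hab⟩ (disjoint_left.1 hcap ⟨b, hb, rfl⟩)
        · exact iQ ha hb hab
      rw [image_union] at bP bQ
      obtain ⟨k, x, y, hx, hxP, hy, hyQ, hW⟩ := hG.ord _ _ (hPf.image g) hcap bP bQ
      have hk : k = m + 1 := by
        have h1 : (g '' P).encard = k := by
          rw [← hxP, hx.encard_image, ← Finset.coe_Iio, encard_coe_eq_coe_finsetCard, Nat.card_Iio]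
        rw [iP.encard_image, hP] at h1
        exact_mod_cast h1.symm
      subst hk
      set h : β → α := Function.invFunOn g (P ∪ Q) with hh
      have hl : ∀ a ∈ P ∪ Q, h (g a) = a := fun a ha => hinj.leftInvOn_invFunOn ha
      have hhi : ∀ X ⊆ P ∪ Q, h '' (g '' X) = X := by
        intro X hX
        rw [image_image]
        have : (fun a => h (g a)) '' X = id '' X := image_congr fun a ha => hl a (hX ha)
        rw [this, image_id]
      have hxi : ∀ i ≤ m + 1, x '' Iio i ⊆ g '' P := fun i hi => by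
        rw [← hxP]; exact image_mono (Iio_subset_Iio hi)
      have hyi : ∀ i ≤ m + 1, y '' Iio i ⊆ g '' Q := fun i hi => by
        rw [← hyQ]; exact image_mono (Iio_subset_Iio hi)
      have hhinj : InjOn h (g '' (P ∪ Q)) := by
        rintro _ ⟨a, ha, rfl⟩ _ ⟨b, hb, rfl⟩ hab
        rw [hl a ha, hl b hb] at hab
        rw [hab]
      have gh : ∀ Y ⊆ g '' (P ∪ Q), g '' (h '' Y) = Y := by
        intro Y hY
        obtain ⟨X, hX, rfl⟩ := subset_image_iff.1 hY
        rw [hhi X hX]
      have xim : ∀ i, (fun j => h (x j)) '' Iio i = h '' (x '' Iio i) := fun i => by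
        rw [image_image]
      have yim : ∀ i, (fun j => h (y j)) '' Iio i = h '' (y '' Iio i) := fun i => by
        rw [image_image]
      have sP : g '' P ⊆ g '' (P ∪ Q) := image_mono subset_union_left
      have sQ : g '' Q ⊆ g '' (P ∪ Q) := image_mono subset_union_right
      have key : ∀ X Y Z : Set β, ∀ R ⊆ P ∪ Q, X ⊆ g '' R → Y ⊆ g '' (P ∪ Q) →
          Z = (g '' R \ X) ∪ Y → (G ↾ (g '' P ∪ g '' Q)).IsBase Z →
          InjOn g ((R \ h '' X) ∪ h '' Y) ∧ G.Indep (g '' ((R \ h '' X) ∪ h '' Y)) := by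
        rintro X Y Z R hR hX hY rfl hZ
        have e1 : (R \ h '' X) ∪ h '' Y = h '' ((g '' R \ X) ∪ Y) := by
          rw [image_union, (hhinj.mono (image_mono hR)).image_sdiff_subset hX, hhi R hR]
        have hZs : (g '' R \ X) ∪ Y ⊆ g '' (P ∪ Q) :=
          union_subset (sdiff_subset.trans (image_mono hR)) hY
        rw [e1, gh _ hZs]
        refine ⟨hinj.mono ?_, (Matroid.restrict_indep_iff.1 hZ.indep).1⟩
        have := image_mono (f := h) hZs
        rwa [hhi _ Subset.rfl] at this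
      refine ⟨fun j => h (x j), fun j => h (y j), ?_, ?_, ?_, ?_, fun i hi => ⟨?_, ?_⟩⟩
      · intro i hi j hj hij
        exact hx hi hj (hhinj (sP (hxi _ le_rfl ⟨i, hi, rfl⟩)) (sP (hxi _ le_rfl ⟨j, hj, rfl⟩)) hij)
      · rw [xim, hxP, hhi P subset_union_left]
      · intro i hi j hj hij
        exact hy hi hj (hhinj (sQ (hyi _ le_rfl ⟨i, hi, rfl⟩)) (sQ (hyi _ le_rfl ⟨j, hj, rfl⟩)) hij)
      · rw [yim, hyQ, hhi Q subset_union_right]
      · rw [xim, yim]
        exact key _ _ _ P subset_union_left (hxi i hi) ((hyi i hi).trans sQ) rfl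
          (hW i hi).1
      · rw [xim, yim]
        exact key _ _ _ Q subset_union_right (hyi i hi) ((hxi i hi).trans sP) rfl
          (hW i hi).2
    · -- a parallel pair
      obtain ⟨c, ⟨p, hp, hpc⟩, ⟨q, hq, hqc⟩⟩ := not_disjoint_iff.1 hcap
      have hcI : G.Indep {c} := by
        have h1 := (Matroid.restrict_indep_iff.1 bP.indep).1
        exact h1.subset (singleton_subset_iff.2 ⟨p, hp, hpc⟩)
      have iP' : g '' (P \ {p}) = g '' P \ {c} := by
        rw [iP.image_sdiff_subset (singleton_subset_iff.2 hp), image_singleton, hpc]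
      have iQ' : g '' (Q \ {q}) = g '' Q \ {c} := by
        rw [iQ.image_sdiff_subset (singleton_subset_iff.2 hq), image_singleton, hqc]
      have hR : g '' ((P \ {p}) ∪ (Q \ {q})) = g '' (P ∪ Q) \ {c} := by
        rw [image_union, iP', iQ', image_union, union_sdiff_distrib]
      have hcard : (P \ {p}).encard = m := by
        have h1 := encard_sdiff_singleton_add_one hp
        rw [hP, Nat.cast_add, Nat.cast_one] at h1
        exact WithTop.add_right_cancel (ENat.natCast_ne_top 1) h1
      have base : ∀ X : Set β, c ∈ X → (G ↾ (g '' (P ∪ Q))).IsBase X →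
          ((G ／ {c}) ↾ (g '' ((P \ {p}) ∪ (Q \ {q})))).IsBase (X \ {c}) := by
        intro X hcX hX
        have h1 : ((G ↾ (g '' (P ∪ Q))) ／ {c}).IsBase (X \ {c}) := by
          have hci : (G ↾ (g '' (P ∪ Q))).Indep {c} :=
            hX.indep.subset (singleton_subset_iff.2 hcX)
          rw [hci.contract_isBase_iff]
          refine ⟨?_, disjoint_sdiff_left⟩
          rw [sdiff_union_self, union_eq_left.2 (singleton_subset_iff.2 hcX)]
          exact hX
        have hcR : {c} ⊆ g '' (P ∪ Q) := singleton_subset_iff.2 ⟨p, Or.inl hp, hpc⟩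
        rw [Matroid.restrict_contract_eq_contract_restrict _ hcR, ← hR] at h1
        exact h1
      have bP' := base (g '' P) ⟨p, hp, hpc⟩ bP
      have bQ' := base (g '' Q) ⟨q, hq, hqc⟩ bQ
      rw [← iP'] at bP'
      rw [← iQ'] at bQ'
      obtain ⟨x, y, hS⟩ := ih (G ／ {c}) (hG.contract (finite_singleton c)) (P \ {p}) (Q \ {q})
        (hPf.subset sdiff_subset) (hd.mono sdiff_subset sdiff_subset) hcard
        (iP.mono sdiff_subset) (iQ.mono sdiff_subset) bP' bQ'
      have hglue := Ser.glue (I := fun J => InjOn g J ∧ G.Indep (g '' J)) hS (ser_single p q)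
        disjoint_sdiff_left disjoint_sdiff_left ?_
      · rw [sdiff_union_self, sdiff_union_self, union_eq_left.2 (singleton_subset_iff.2 hp),
          union_eq_left.2 (singleton_subset_iff.2 hq)] at hglue
        exact ⟨_, _, hglue⟩
      · rintro W _ W' _ ⟨hWi, hWI⟩ hW'
        rw [hcI.contract_indep_iff] at hWI
        obtain ⟨a, rfl, hac⟩ : ∃ a, W' = {a} ∧ g a = c := by
          rcases hW' with h | h
          · exact ⟨p, h, hpc⟩
          · exact ⟨q, h, hqc⟩
        have hcW : c ∉ g '' W := fun h => disjoint_left.1 hWI.1 h rfl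
        refine ⟨?_, ?_⟩
        · intro a₁ h1 a₂ h2 h12
          rcases h1 with h1 | h1 <;> rcases h2 with h2 | h2
          · exact hWi h1 h2 h12
          · rw [mem_singleton_iff.1 h2, hac] at h12
            exact absurd ⟨a₁, h1, h12⟩ hcW
          · rw [mem_singleton_iff.1 h1, hac] at h12
            exact absurd ⟨a₂, h2, h12.symm⟩ hcW
          · rw [mem_singleton_iff.1 h1, mem_singleton_iff.1 h2]
        · rw [image_union, image_singleton, hac]
          exact hWI.2

theorem Ord.comap [Nonempty α] [Nonempty β] {G : Matroid β} (hG : MOrd G) (g : α → β) :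
    Ord (G.comap g) := by
  intro P Q hPf hd hP hQ
  have hPQ : P ∪ Q ⊆ (G.comap g).E := union_subset
    (Matroid.restrict_indep_iff.1 hP.indep).1.subset_ground
    (Matroid.restrict_indep_iff.1 hQ.indep).1.subset_ground
  have bP := (Matroid.isBase_restrict_iff hPQ).1 hP
  have bQ := (Matroid.isBase_restrict_iff hPQ).1 hQ
  rw [Matroid.comap_isBasis_iff] at bP bQ
  obtain ⟨m, hm⟩ : ∃ m : ℕ, P.encard = m := ⟨P.ncard, (hPf.cast_ncard_eq).symm⟩
  have hE : g '' (P ∪ Q) ⊆ G.E := bP.1.subset_ground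
  obtain ⟨x, y, hS⟩ := comap_ser g m G hG P Q hPf hd hm bP.2.1 bQ.2.1
    ((Matroid.isBase_restrict_iff hE).2 bP.1) ((Matroid.isBase_restrict_iff hE).2 bQ.1)
  obtain ⟨hx, hxP, hy, hyQ, hW⟩ := hS
  have hxi : ∀ i, i ≤ m → x '' Iio i ⊆ P := fun i hi => by
    rw [← hxP]; exact image_mono (Iio_subset_Iio hi)
  have hyi : ∀ i, i ≤ m → y '' Iio i ⊆ Q := fun i hi => by
    rw [← hyQ]; exact image_mono (Iio_subset_Iio hi)
  refine ⟨m, x, y, Ser.good ⟨hx, hxP, hy, hyQ, fun i hi => ⟨?_, ?_⟩⟩ hd hP⟩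
  · exact Matroid.restrict_indep_iff.2 ⟨Matroid.comap_indep_iff.2 ⟨(hW i hi).1.2, (hW i hi).1.1⟩,
      union_subset_union sdiff_subset (hyi i hi)⟩
  · refine Matroid.restrict_indep_iff.2 ⟨Matroid.comap_indep_iff.2 ⟨(hW i hi).2.2,
      (hW i hi).2.1⟩, ?_⟩
    rw [union_comm P]
    exact union_subset_union sdiff_subset (hxi i hi)

/-- Matroids that arise by a bipartite graph from a matroid all of whose minors are ordered. -/
theorem Low.of_induced' [Nonempty α] {L : Matroid α} {G : Matroid β} {Γ : α → β → Prop}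
    (hG : MOrd G) (hL : ∀ J ⊆ L.E, L.Indep J ↔
      ∃ φ : α → β, (∀ e ∈ J, Γ e (φ e)) ∧ InjOn φ J ∧ G.Indep (φ '' J)) : Low L := by
  classical
  intro P Q hPf hQf hd hP hQ
  obtain ⟨φ, hφ1, hφ2, hφ3⟩ := (hL P hP.subset_ground).1 hP
  obtain ⟨ψ, hψ1, hψ2, hψ3⟩ := (hL Q hQ.subset_ground).1 hQ
  have : Nonempty β := ⟨φ (Classical.arbitrary α)⟩
  set g : α → β := fun e => if e ∈ P then φ e else ψ e with hg
  have gP : ∀ e ∈ P, g e = φ e := fun e he => if_pos he
  have gQ : ∀ e ∈ Q, g e = ψ e := fun e he => if_neg (disjoint_right.1 hd he)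
  have iP : g '' P = φ '' P := image_congr gP
  have iQ : g '' Q = ψ '' Q := image_congr gQ
  refine ⟨(G.comap g) ↾ (P ∪ Q), Matroid.restrict_ground_eq, ?_, ?_, ?_,
    (Ord.comap hG g).restrict _⟩
  · rw [Matroid.restrict_indep_iff, Matroid.comap_indep_iff, iP]
    exact ⟨⟨hφ3, hφ2.congr fun e he => (gP e he).symm⟩, subset_union_left⟩
  · rw [Matroid.restrict_indep_iff, Matroid.comap_indep_iff, iQ]
    exact ⟨⟨hψ3, hψ2.congr fun e he => (gQ e he).symm⟩, subset_union_right⟩
  · intro J hJ
    rw [Matroid.restrict_indep_iff, Matroid.comap_indep_iff] at hJ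
    obtain ⟨⟨h1, h2⟩, h3⟩ := hJ
    have hJE : J ⊆ L.E := h3.trans (union_subset hP.subset_ground hQ.subset_ground)
    refine (hL J hJE).2 ⟨g, fun e he => ?_, h2, h1⟩
    rcases h3 he with h | h
    · rw [gP e h]; exact hφ1 e h
    · rw [gQ e h]; exact hψ1 e h

/-! ### Classes closed under minors -/

theorem MOrd.of_cycle [Nonempty β] {G : Matroid β} (h : IsCycleMatroid G) : MOrd G := by
  obtain ⟨V, u, v, hrep⟩ := h
  intro X hX
  obtain ⟨u', v', h'⟩ := rep_contract hX _ u v hrep
  exact Ord.of_cycle ⟨V, u', v', h'⟩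

theorem MOrd.of_cocycle [Nonempty β] {G : Matroid β} (h : IsCycleMatroid G✶) (hf : G.E.Finite) :
    MOrd G := by
  obtain ⟨V, u, v, hrep⟩ := h
  intro X hX
  refine Ord.of_cocycle ⟨V, u, v, ?_⟩ (hf.subset (by rw [Matroid.contract_ground]; exact sdiff_subset))
  rw [Matroid.dual_contract]
  intro J hJ
  rw [Matroid.delete_ground] at hJ
  have hdj : Disjoint J X := disjoint_left.2 fun e he heX => (hJ he).2 heX
  have := hrep J (hJ.trans sdiff_subset)
  rw [Matroid.delete_indep_iff]
  exact ⟨fun hh => this.1 hh.1, fun hh => ⟨this.2 hh, hdj⟩⟩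

theorem MOrd.of_rank [Nonempty β] {G : Matroid β} (h : G.eRank ≤ 4) : MOrd G := by
  intro X _
  refine Ord.of_rank (le_trans ?_ h)
  obtain ⟨B, hB⟩ := (G ／ X).exists_isBase
  rw [← hB.encard_eq_eRank]
  exact (hB.indep.of_contract).encard_le_eRank

end Pool.Agent.Lib.MP_2c7063_coU
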