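import Pool.Agent.Lib.MP_2c7063_coU.Sbo
import Pool.Agent.Lib.MP_2c7063_coU.Comap

/-!
# Good cyclic orderings in truncations, elongations and unions
-/

namespace Pool.Agent.Lib.MP_2c7063_coU

open Set
open scoped Matroid Function
open Pool.Agent.Lib.MP_2c7063_coS (Good Rep inc IsCycleMatroid isBase_of good_dual tr tr_indep
  tr_eRank final window_card tight_sUnion)
open Pool.Agent.Lib.MP_2c7063_coT (NearCycle near_good tight_bases)

variable {α : Type*}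

/-- A truncation has good orderings if the restriction to the largest tight set has. -/
theorem good_of_tight [Nonempty α] {M N : Matroid α} {r : ℕ} {B B' : Set α} (hB : M.IsBase B)
    (hB' : M.IsBase B') (hd : Disjoint B B') (hr : B.encard = r) (hBN : N.Indep B)
    (hBN' : N.Indep B')
    (hN : (∀ J ⊆ B ∪ B', N.Indep J → J.encard ≤ r → M.Indep J) ∨
      (∀ J ⊆ B ∪ B', N.Indep J → J.encard ≤ r → (M ↾ (B ∪ B'))✶.Indep J)) {A : Set α}
    (hA : A = ⋃₀ {A' | A' ⊆ B ∪ B' ∧ A'.encard = 2 * N.eRk A'})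
    (hgood : ∃ k x y, Good (N ↾ A) (A ∩ B) (A ∩ B') k x y) :
    ∃ x y, Good M B B' r x y := by
  have hMr : M.eRank = r := by rw [← hB.encard_eq_eRank, hr]
  have hr' : B'.encard = r := by rw [hB'.encard_eq_eRank, hMr]
  have bound := tr_eRank N r
  have hPi : (tr N r).Indep B := tr_indep.2 ⟨hBN, hr.le⟩
  have hQi : (tr N r).Indep B' := tr_indep.2 ⟨hBN', hr'.le⟩
  have hrk : (tr N r).eRank = r := by
    refine le_antisymm bound ?_
    rw [← hr, ← hPi.eRk_eq_encard]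
    exact (tr N r).eRk_le_eRank B
  obtain ⟨x, y, hg⟩ := final (M := tr N r) (N := N) (fun J => tr_indep) (isBase_of hPi hr hrk)
    (isBase_of hQi hr' hrk) hd hr hA (Or.inr (Or.inr hgood))
  obtain ⟨hx, hxB, hy, hyB, hW⟩ := hg
  have hxi : ∀ i, i ≤ r → x '' Iio i ⊆ B := fun i hi => by
    rw [← hxB]; exact image_mono (Iio_subset_Iio hi)
  have hyi : ∀ i, i ≤ r → y '' Iio i ⊆ B' := fun i hi => by
    rw [← hyB]; exact image_mono (Iio_subset_Iio hi)
  have s1 : ∀ i ≤ r, (B \ x '' Iio i) ∪ y '' Iio i ⊆ B ∪ B' := fun i hi =>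
    union_subset_union sdiff_subset (hyi i hi)
  have s2 : ∀ i ≤ r, (B' \ y '' Iio i) ∪ x '' Iio i ⊆ B ∪ B' := fun i hi => by
    rw [union_comm B]; exact union_subset_union sdiff_subset (hxi i hi)
  have c1 : ∀ i ≤ r, ((B \ x '' Iio i) ∪ y '' Iio i).encard = r := fun i hi =>
    window_card hd hr hx hxB hy hyB hi
  have c2 : ∀ i ≤ r, ((B' \ y '' Iio i) ∪ x '' Iio i).encard = r := fun i hi =>
    window_card hd.symm hr' hy hyB hx hxB hi
  rcases hN with h | h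
  · refine ⟨x, y, hx, hxB, hy, hyB, fun i hi => ⟨?_, ?_⟩⟩
    · exact isBase_of (h _ (s1 i hi) (tr_indep.1 (hW i hi).1.indep).1 (c1 i hi).le) (c1 i hi) hMr
    · exact isBase_of (h _ (s2 i hi) (tr_indep.1 (hW i hi).2.indep).1 (c2 i hi).le) (c2 i hi) hMr
  · have hRE : (M ↾ (B ∪ B')).E = B ∪ B' := Matroid.restrict_ground_eq
    have hRr : (M ↾ (B ∪ B')).eRank = r := by
      rw [Matroid.eRank_restrict]
      refine le_antisymm ((M.eRk_le_eRank _).trans hMr.le) ?_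
      rw [← hr, ← hB.indep.eRk_eq_encard]
      exact M.eRk_mono subset_union_left
    have hRB' : (M ↾ (B ∪ B')).IsBase B' :=
      isBase_of (Matroid.restrict_indep_iff.2 ⟨hB'.indep, subset_union_right⟩) hr' hRr
    have d1 : (M ↾ (B ∪ B'))✶.IsBase B := by
      rw [Matroid.dual_isBase_iff', hRE]
      refine ⟨?_, subset_union_left⟩
      rw [union_sdiff_left, hd.symm.sdiff_eq_left]; exact hRB'
    have hdr : (M ↾ (B ∪ B'))✶.eRank = r := by rw [← d1.encard_eq_eRank, hr]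
    have hg : Good (M ↾ (B ∪ B')) B B' r x y := by
      refine good_dual hd hRE ⟨hx, hxB, hy, hyB, fun i hi => ⟨?_, ?_⟩⟩
      · exact isBase_of (h _ (s1 i hi) (tr_indep.1 (hW i hi).1.indep).1 (c1 i hi).le) (c1 i hi) hdr
      · exact isBase_of (h _ (s2 i hi) (tr_indep.1 (hW i hi).2.indep).1 (c2 i hi).le) (c2 i hi) hdr
    refine ⟨x, y, hx, hxB, hy, hyB, fun i hi => ⟨?_, ?_⟩⟩
    · exact isBase_of (Matroid.restrict_indep_iff.1 (hg.2.2.2.2 i hi).1.indep).1 (c1 i hi) hMr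
    · exact isBase_of (Matroid.restrict_indep_iff.1 (hg.2.2.2.2 i hi).2.indep).1 (c2 i hi) hMr

/-- `K` is the union of the matroids `L i`. -/
def IsUnion (K : Matroid α) {n : ℕ} (L : Fin n → Matroid α) : Prop :=
  ∀ J ⊆ K.E, K.Indep J ↔ ∃ f : Fin n → Set α, (∀ i, (L i).Indep (f i)) ∧ J = ⋃ i, f i

theorem IsUnion.good [Nonempty α] {K : Matroid α} {n : ℕ} {L : Fin n → Matroid α}
    (h : IsUnion K L) (hlow : ∀ i, Low (L i)) {P Q : Set α} (hP : K.IsBase P) (hQ : K.IsBase Q)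
    (hd : Disjoint P Q) {k : ℕ} (hk : P.encard = k) : ∃ x y, Good K P Q k x y :=
  union_good hlow (fun f hf hE => (h _ hE).2 ⟨f, hf, rfl⟩) hP hQ hd hk
    ((h P hP.subset_ground).1 hP.indep) ((h Q hQ.subset_ground).1 hQ.indep)

/-- The parts of the unions. -/
theorem IsUnion.good' [Nonempty α] {K : Matroid α} {n : ℕ} {L : Fin n → Matroid α}
    (h : IsUnion K L) (hL : ∀ i, (L i).E.Finite ∧
      (IsCycleMatroid (L i)✶ ∨ (L i).eRank ≤ 4 ∨ Sbo (L i) ∨ Low (L i))) {P Q : Set α}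
    (hP : K.IsBase P) (hQ : K.IsBase Q) (hd : Disjoint P Q) {k : ℕ} (hk : P.encard = k) :
    ∃ x y, Good K P Q k x y := by
  refine h.good (fun i => ?_) hP hQ hd hk
  obtain ⟨hf, h1 | h1 | h1 | h1⟩ := hL i
  · exact (Ord.of_cocycle h1 hf).low
  · exact (Ord.of_rank h1).low
  · exact (Ord.of_sbo h1 hf).low
  · exact h1

theorem main [Nonempty α] {M N : Matroid α} {r : ℕ} {B B' : Set α} (hB : M.IsBase B)
    (hB' : M.IsBase B') (hd : Disjoint B B') (hr : B.encard = r) (hBN : N.Indep B)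
    (hBN' : N.Indep B')
    (hN : (∀ J ⊆ B ∪ B', N.Indep J → J.encard ≤ r → M.Indep J) ∨
      (∀ J ⊆ B ∪ B', N.Indep J → J.encard ≤ r → (M ↾ (B ∪ B'))✶.Indep J)) {A : Set α}
    (hA : A = ⋃₀ {A' | A' ⊆ B ∪ B' ∧ A'.encard = 2 * N.eRk A'})
    (hgood : NearCycle (N ↾ A) ∨ NearCycle (N ↾ A)✶ ∨
      (∃ (n : ℕ) (L : Fin n → Matroid α), IsUnion (N ↾ A) L ∧
        ∀ i, (L i).E.Finite ∧
          (IsCycleMatroid (L i)✶ ∨ (L i).eRank ≤ 4 ∨ Sbo (L i) ∨ Low (L i))) ∨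
      (∃ (n : ℕ) (L : Fin n → Matroid α), IsUnion (N ↾ A)✶ L ∧
        ∀ i, (L i).E.Finite ∧
          (IsCycleMatroid (L i)✶ ∨ (L i).eRank ≤ 4 ∨ Sbo (L i) ∨ Low (L i))) ∨
      ∃ k x y, Good (N ↾ A) (A ∩ B) (A ∩ B') k x y) :
    ∃ x y, Good M B B' r x y := by
  have hMr : M.eRank = r := by rw [← hB.encard_eq_eRank, hr]
  have hr' : B'.encard = r := by rw [hB'.encard_eq_eRank, hMr]
  have hBf : (B ∪ B').Finite := (finite_of_encard_eq_coe hr).union (finite_of_encard_eq_coe hr')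
  have hAB : A ⊆ B ∪ B' := by
    rw [hA]; exact sUnion_subset fun A' hA' => hA'.1
  have hAt : A.encard = 2 * N.eRk A := by
    rw [hA]; exact tight_sUnion hBN hBN' hBf
  obtain ⟨k, hP, hQ, hk⟩ := tight_bases hBN hBN' hd hAB (hBf.subset hAB) hAt
  have hE : (N ↾ A).E = (A ∩ B) ∪ (A ∩ B') := by
    rw [Matroid.restrict_ground_eq, ← inter_union_distrib_left, inter_eq_left.2 hAB]
  have hPQd : Disjoint (A ∩ B) (A ∩ B') := hd.mono inter_subset_right inter_subset_right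
  refine good_of_tight hB hB' hd hr hBN hBN' hN hA ?_
  rcases hgood with h | h | ⟨n, L, h1, h2⟩ | ⟨n, L, h1, h2⟩ | h
  · obtain ⟨x, y, hg⟩ := near_good hP hQ hPQd hE hk (Or.inl h)
    exact ⟨k, x, y, hg⟩
  · obtain ⟨x, y, hg⟩ := near_good hP hQ hPQd hE hk (Or.inr h)
    exact ⟨k, x, y, hg⟩
  · obtain ⟨x, y, hg⟩ := h1.good' h2 hP hQ hPQd hk
    exact ⟨k, x, y, hg⟩
  · have d1 : (N ↾ A)✶.IsBase (A ∩ B) := by
      rw [Matroid.dual_isBase_iff', hE]
      refine ⟨?_, subset_union_left⟩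
      rw [union_sdiff_left, hPQd.symm.sdiff_eq_left]; exact hQ
    have d2 : (N ↾ A)✶.IsBase (A ∩ B') := by
      rw [Matroid.dual_isBase_iff', hE]
      refine ⟨?_, subset_union_right⟩
      rw [union_sdiff_right, hPQd.sdiff_eq_left]; exact hP
    obtain ⟨x, y, hg⟩ := h1.good' h2 d1 d2 hPQd hk
    exact ⟨k, x, y, good_dual hPQd hE hg⟩
  · exact h

end Pool.Agent.Lib.MP_2c7063_coU
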