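import Pool.Agent.Lib.MP_2c7063_coT.NearFinal

/-!
# Direct sums of matroids in which disjoint bases have good cyclic orderings
-/

namespace Pool.Agent.Lib.MP_2c7063_coU

open Set
open scoped Matroid Function
open Pool.Agent.Lib.MP_2c7063_coS (Good Rep inc IsCycleMatroid isBase_of tight_sUnion good_dual
  glue glue_low glue_high glue_injOn window_card tr tr_indep tr_eRank final)

variable {α : Type*}

/-- Orderings of `P` and `Q` with all windows in `I`. -/
def Ser (I : Set α → Prop) (P Q : Set α) (k : ℕ) (x y : ℕ → α) : Prop :=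
  InjOn x (Iio k) ∧ x '' Iio k = P ∧ InjOn y (Iio k) ∧ y '' Iio k = Q ∧
    ∀ i ≤ k, I ((P \ x '' Iio i) ∪ y '' Iio i) ∧ I ((Q \ y '' Iio i) ∪ x '' Iio i)

/-- Concatenation. -/
theorem Ser.glue {I I1 I2 : Set α → Prop} {P1 Q1 P2 Q2 : Set α} {k1 k2 : ℕ}
    {x1 y1 x2 y2 : ℕ → α} (h1 : Ser I1 P1 Q1 k1 x1 y1) (h2 : Ser I2 P2 Q2 k2 x2 y2)
    (hP : Disjoint P1 P2) (hQ : Disjoint Q1 Q2)
    (hI : ∀ V ⊆ P1 ∪ Q1, ∀ V' ⊆ P2 ∪ Q2, I1 V → I2 V' → I (V ∪ V')) :
    Ser I (P1 ∪ P2) (Q1 ∪ Q2) (k1 + k2) (glue k1 x1 x2) (glue k1 y1 y2) := by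
  obtain ⟨hx1, hx1P, hy1, hy1Q, hW1⟩ := h1
  obtain ⟨hx2, hx2P, hy2, hy2Q, hW2⟩ := h2
  have hx1i : ∀ i, i ≤ k1 → x1 '' Iio i ⊆ P1 := fun i hi => by
    rw [← hx1P]; exact image_mono (Iio_subset_Iio hi)
  have hy1i : ∀ i, i ≤ k1 → y1 '' Iio i ⊆ Q1 := fun i hi => by
    rw [← hy1Q]; exact image_mono (Iio_subset_Iio hi)
  have hx2i : ∀ i, i ≤ k2 → x2 '' Iio i ⊆ P2 := fun i hi => by
    rw [← hx2P]; exact image_mono (Iio_subset_Iio hi)
  have hy2i : ∀ i, i ≤ k2 → y2 '' Iio i ⊆ Q2 := fun i hi => by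
    rw [← hy2Q]; exact image_mono (Iio_subset_Iio hi)
  have p12 : ∀ e, e ∈ P1 → e ∉ P2 := fun e h => disjoint_left.1 hP h
  have q12 : ∀ e, e ∈ Q1 → e ∉ Q2 := fun e h => disjoint_left.1 hQ h
  refine ⟨glue_injOn rfl hx1 hx2 (by rw [hx1P, hx2P]; exact hP), by rw [glue_high, hx1P, hx2P],
    glue_injOn rfl hy1 hy2 (by rw [hy1Q, hy2Q]; exact hQ), by rw [glue_high, hy1Q, hy2Q], ?_⟩
  have s1 : ∀ i ≤ k1, (P1 \ x1 '' Iio i) ∪ y1 '' Iio i ⊆ P1 ∪ Q1 := fun i hi =>
    union_subset_union sdiff_subset (hy1i i hi)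
  have s2 : ∀ i ≤ k1, (Q1 \ y1 '' Iio i) ∪ x1 '' Iio i ⊆ P1 ∪ Q1 := fun i hi => by
    rw [union_comm P1]; exact union_subset_union sdiff_subset (hx1i i hi)
  have s3 : ∀ i ≤ k2, (P2 \ x2 '' Iio i) ∪ y2 '' Iio i ⊆ P2 ∪ Q2 := fun i hi =>
    union_subset_union sdiff_subset (hy2i i hi)
  have s4 : ∀ i ≤ k2, (Q2 \ y2 '' Iio i) ∪ x2 '' Iio i ⊆ P2 ∪ Q2 := fun i hi => by
    rw [union_comm P2]; exact union_subset_union sdiff_subset (hx2i i hi)
  have z1 : ∀ z : ℕ → α, z '' Iio 0 = ∅ := fun z => by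
    rw [image_eq_empty]; ext j; simp
  have t2 := hW2 0 (Nat.zero_le _)
  rw [z1, z1, sdiff_empty, union_empty, sdiff_empty, union_empty] at t2
  have t1 := hW1 k1 le_rfl
  rw [hx1P, hy1Q, Set.sdiff_self, Set.sdiff_self, empty_union, empty_union] at t1
  intro i hi
  rcases le_total i k1 with hik | hik
  · rw [glue_low hik, glue_low hik]
    have e1 : ((P1 ∪ P2) \ x1 '' Iio i) ∪ y1 '' Iio i = ((P1 \ x1 '' Iio i) ∪ y1 '' Iio i) ∪ P2 := by
      ext e
      have a1 : e ∈ x1 '' Iio i → e ∈ P1 := fun h => hx1i i hik h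
      have a2 := p12 e
      simp only [mem_union, mem_sdiff]
      tauto
    have e2 : ((Q1 ∪ Q2) \ y1 '' Iio i) ∪ x1 '' Iio i = ((Q1 \ y1 '' Iio i) ∪ x1 '' Iio i) ∪ Q2 := by
      ext e
      have a1 : e ∈ y1 '' Iio i → e ∈ Q1 := fun h => hy1i i hik h
      have a2 := q12 e
      simp only [mem_union, mem_sdiff]
      tauto
    rw [e1, e2]
    exact ⟨hI _ (s1 i hik) _ subset_union_left (hW1 i hik).1 t2.1,
      hI _ (s2 i hik) _ subset_union_right (hW1 i hik).2 t2.2⟩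
  · obtain ⟨j, rfl⟩ : ∃ j, i = k1 + j := ⟨i - k1, by omega⟩
    have hj : j ≤ k2 := by omega
    rw [glue_high, glue_high, hx1P, hy1Q]
    have e1 : ((P1 ∪ P2) \ (P1 ∪ x2 '' Iio j)) ∪ (Q1 ∪ y2 '' Iio j) =
        Q1 ∪ ((P2 \ x2 '' Iio j) ∪ y2 '' Iio j) := by
      ext e
      have a2 := p12 e
      simp only [mem_union, mem_sdiff]
      tauto
    have e2 : ((Q1 ∪ Q2) \ (Q1 ∪ y2 '' Iio j)) ∪ (P1 ∪ x2 '' Iio j) =
        P1 ∪ ((Q2 \ y2 '' Iio j) ∪ x2 '' Iio j) := by
      ext e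
      have a2 := q12 e
      simp only [mem_union, mem_sdiff]
      tauto
    rw [e1, e2]
    exact ⟨hI _ subset_union_right _ (s3 j hj) t1.1 (hW2 j hj).1,
      hI _ subset_union_left _ (s4 j hj) t1.2 (hW2 j hj).2⟩

theorem Ser.empty {I : Set α → Prop} (h : I ∅) (x y : ℕ → α) : Ser I ∅ ∅ 0 x y := by
  have z1 : ∀ z : ℕ → α, z '' Iio 0 = ∅ := fun z => by
    rw [image_eq_empty]; ext j; simp
  refine ⟨fun i hi => absurd hi (Nat.not_lt_zero _), z1 x, fun i hi => absurd hi (Nat.not_lt_zero _),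
    z1 y, fun i hi => ?_⟩
  obtain rfl : i = 0 := Nat.le_zero.1 hi
  rw [z1, z1, sdiff_empty, union_empty]
  exact ⟨h, h⟩

/-- Any two disjoint bases of a restriction have a good cyclic ordering. -/
def Ord (L : Matroid α) : Prop :=
  ∀ P Q : Set α, P.Finite → Disjoint P Q → (L ↾ (P ∪ Q)).IsBase P → (L ↾ (P ∪ Q)).IsBase Q →
    ∃ k x y, Good (L ↾ (P ∪ Q)) P Q k x y

theorem Ord.restrict {L : Matroid α} (h : Ord L) (X : Set α) : Ord (L ↾ X) := by
  intro P Q hPf hd hP hQ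
  have hs : P ∪ Q ⊆ X := by
    refine union_subset ?_ ?_
    · have := (Matroid.restrict_indep_iff.1 hP.indep).1
      exact (Matroid.restrict_indep_iff.1 this).2
    · have := (Matroid.restrict_indep_iff.1 hQ.indep).1
      exact (Matroid.restrict_indep_iff.1 this).2
  rw [Matroid.restrict_restrict_eq _ hs] at hP hQ ⊢
  exact h P Q hPf hd hP hQ

/-- From independent windows to bases. -/
theorem Ser.good {M : Matroid α} {P Q : Set α} {k : ℕ} {x y : ℕ → α} (h : Ser M.Indep P Q k x y)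
    (hd : Disjoint P Q) (hP : M.IsBase P) : Good M P Q k x y := by
  obtain ⟨hx, hxP, hy, hyQ, hW⟩ := h
  have hk : P.encard = k := by
    rw [← hxP, hx.encard_image, ← Finset.coe_Iio, encard_coe_eq_coe_finsetCard, Nat.card_Iio]
  have hk' : Q.encard = k := by
    rw [← hyQ, hy.encard_image, ← Finset.coe_Iio, encard_coe_eq_coe_finsetCard, Nat.card_Iio]
  have hr : M.eRank = k := by rw [← hP.encard_eq_eRank, hk]
  exact ⟨hx, hxP, hy, hyQ, fun i hi => ⟨isBase_of (hW i hi).1 (window_card hd hk hx hxP hy hyQ hi) hr,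
    isBase_of (hW i hi).2 (window_card hd.symm hk' hy hyQ hx hxP hi) hr⟩⟩

theorem Good.ser {M : Matroid α} {P Q : Set α} {k : ℕ} {x y : ℕ → α} (h : Good M P Q k x y) :
    Ser M.Indep P Q k x y :=
  ⟨h.1, h.2.1, h.2.2.1, h.2.2.2.1, fun i hi => ⟨(h.2.2.2.2 i hi).1.indep, (h.2.2.2.2 i hi).2.indep⟩⟩

theorem sum_ord [Nonempty α] {n : ℕ} {L : Fin n → Matroid α}
    (hL : Pairwise (Disjoint on fun i => (L i).E)) (h : ∀ i, Ord (L i)) :
    Ord (Matroid.disjointSigma L hL) := by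
  intro P Q hPf hd hP hQ
  set S := Matroid.disjointSigma L hL with hS
  have hPS : P ⊆ S.E := (Matroid.restrict_indep_iff.1 hP.indep).1.subset_ground
  have hQS : Q ⊆ S.E := (Matroid.restrict_indep_iff.1 hQ.indep).1.subset_ground
  have hPQS : P ∪ Q ⊆ S.E := union_subset hPS hQS
  have bP := (Matroid.isBase_restrict_iff hPQS).1 hP
  have bQ := (Matroid.isBase_restrict_iff hPQS).1 hQ
  rw [hS, Matroid.disjointSigma_isBasis_iff] at bP bQ
  -- the parts
  have hpart : ∀ i, ∃ k x y, Good (L i ↾ ((P ∩ (L i).E) ∪ (Q ∩ (L i).E))) (P ∩ (L i).E)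
      (Q ∩ (L i).E) k x y := by
    intro i
    refine h i _ _ (hPf.subset inter_subset_left)
      (hd.mono inter_subset_left inter_subset_left) ?_ ?_
    · rw [Matroid.isBase_restrict_iff (union_subset inter_subset_right inter_subset_right),
        ← union_inter_distrib_right]
      exact bP.1 i
    · rw [Matroid.isBase_restrict_iff (union_subset inter_subset_right inter_subset_right),
        ← union_inter_distrib_right]
      exact bQ.1 i
  have hdis : ∀ i j : Fin n, i ≠ j → ∀ e, e ∈ (L i).E → e ∉ (L j).E := fun i j hij e he =>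
    disjoint_left.1 (hL hij) he
  have key : ∀ m : ℕ, m ≤ n → ∃ k x y, Ser S.Indep {e | e ∈ P ∧ ∃ i : Fin n, i.val < m ∧ e ∈ (L i).E}
      {e | e ∈ Q ∧ ∃ i : Fin n, i.val < m ∧ e ∈ (L i).E} k x y := by
    intro m
    induction m with
    | zero =>
      intro _
      have z : ∀ X : Set α, {e | e ∈ X ∧ ∃ i : Fin n, i.val < 0 ∧ e ∈ (L i).E} = ∅ := by
        intro X
        ext e
        simp
      rw [z, z]
      exact ⟨0, _, _, Ser.empty S.empty_indep (fun _ => Classical.arbitrary α)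
        (fun _ => Classical.arbitrary α)⟩
    | succ m ih =>
      intro hm
      obtain ⟨k1, x1, y1, h1⟩ := ih (by omega)
      set j : Fin n := ⟨m, by omega⟩ with hj
      obtain ⟨k2, x2, y2, h2⟩ := hpart j
      have e1 : ∀ X : Set α, {e | e ∈ X ∧ ∃ i : Fin n, i.val < m + 1 ∧ e ∈ (L i).E} =
          {e | e ∈ X ∧ ∃ i : Fin n, i.val < m ∧ e ∈ (L i).E} ∪ (X ∩ (L j).E) := by
        intro X
        ext e
        simp only [mem_ofPred_eq, mem_union, mem_inter_iff]
        constructor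
        · rintro ⟨hX, i, hi, he⟩
          rcases Nat.lt_succ_iff_lt_or_eq.1 hi with h' | h'
          · exact Or.inl ⟨hX, i, h', he⟩
          · have : i = j := Fin.ext h'
            exact Or.inr ⟨hX, this ▸ he⟩
        · rintro (⟨hX, i, hi, he⟩ | ⟨hX, he⟩)
          · exact ⟨hX, i, by omega, he⟩
          · exact ⟨hX, j, Nat.lt_succ_self m, he⟩
      have d1 : ∀ X : Set α, Disjoint {e | e ∈ X ∧ ∃ i : Fin n, i.val < m ∧ e ∈ (L i).E}
          (X ∩ (L j).E) := by
        intro X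
        refine disjoint_left.2 ?_
        rintro e ⟨_, i, hi, he⟩ ⟨_, he'⟩
        have hij : i ≠ j := fun h => by rw [h, hj] at hi; exact absurd hi (lt_irrefl _)
        exact hdis i j hij e he he'
      rw [e1, e1]
      refine ⟨_, _, _, Ser.glue h1 (Good.ser h2) (d1 P) (d1 Q) ?_⟩
      intro V hV V' hV' hVi hVi'
      have hV'i := (Matroid.restrict_indep_iff.1 hVi').1
      rw [hS, Matroid.disjointSigma_indep_iff] at hVi ⊢
      constructor
      · intro i
        by_cases hij : i = j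
        · rw [hij]
          have : (V ∪ V') ∩ (L j).E ⊆ V' := by
            rintro e ⟨he | he, heE⟩
            · rcases hV he with ⟨_, i', hi', he'⟩ | ⟨_, i', hi', he'⟩
              · have hne : i' ≠ j := fun h => by rw [h, hj] at hi'; exact absurd hi' (lt_irrefl _)
                exact absurd heE (hdis i' j hne e he')
              · have hne : i' ≠ j := fun h => by rw [h, hj] at hi'; exact absurd hi' (lt_irrefl _)
                exact absurd heE (hdis i' j hne e he')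
            · exact he
          exact hV'i.subset this
        · have : (V ∪ V') ∩ (L i).E ⊆ V ∩ (L i).E := by
            rintro e ⟨he | he, heE⟩
            · exact ⟨he, heE⟩
            · exact absurd (hV'i.subset_ground he) (hdis i j hij e heE)
          exact (hVi.1 i).subset this
      · refine union_subset hVi.2 ?_
        exact (hV'i.subset_ground).trans (subset_iUnion (fun i => (L i).E) j)
  obtain ⟨k, x, y, hk⟩ := key n le_rfl
  have hall : ∀ X : Set α, X ⊆ S.E → {e | e ∈ X ∧ ∃ i : Fin n, i.val < n ∧ e ∈ (L i).E} = X := by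
    intro X hX
    ext e
    simp only [mem_ofPred_eq, and_iff_left_iff_imp]
    intro he
    have := hX he
    rw [hS, Matroid.disjointSigma_ground_eq, mem_iUnion] at this
    obtain ⟨i, hi⟩ := this
    exact ⟨i, i.2, hi⟩
  rw [hall P hPS, hall Q hQS] at hk
  refine ⟨k, x, y, Ser.good ?_ hd hP⟩
  obtain ⟨hx, hxP, hy, hyQ, hW⟩ := hk
  have hxi : ∀ i, i ≤ k → x '' Iio i ⊆ P := fun i hi => by
    rw [← hxP]; exact image_mono (Iio_subset_Iio hi)
  have hyi : ∀ i, i ≤ k → y '' Iio i ⊆ Q := fun i hi => by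
    rw [← hyQ]; exact image_mono (Iio_subset_Iio hi)
  refine ⟨hx, hxP, hy, hyQ, fun i hi => ⟨?_, ?_⟩⟩
  · exact Matroid.restrict_indep_iff.2 ⟨(hW i hi).1, union_subset_union sdiff_subset (hyi i hi)⟩
  · refine Matroid.restrict_indep_iff.2 ⟨(hW i hi).2, ?_⟩
    rw [union_comm P]
    exact union_subset_union sdiff_subset (hxi i hi)

/-- The truncation theorem for `Ord`. -/
theorem Ord.serial [Nonempty α] {N : Matroid α} (hN : Ord N) {P Q : Set α} {k : ℕ}
    (hP : N.Indep P) (hQ : N.Indep Q) (hd : Disjoint P Q) (hPk : P.encard = k)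
    (hQk : Q.encard = k) : ∃ x y, Ser N.Indep P Q k x y := by
  have hPf : P.Finite := finite_of_encard_eq_coe hPk
  have hQf : Q.Finite := finite_of_encard_eq_coe hQk
  have bound := tr_eRank N k
  have hPi : (tr N k).Indep P := tr_indep.2 ⟨hP, hPk.le⟩
  have hQi : (tr N k).Indep Q := tr_indep.2 ⟨hQ, hQk.le⟩
  have hr : (tr N k).eRank = k := by
    refine le_antisymm bound ?_
    rw [← hPk, ← hPi.eRk_eq_encard]
    exact (tr N k).eRk_le_eRank P
  have bP : (tr N k).IsBase P := isBase_of hPi hPk hr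
  have bQ : (tr N k).IsBase Q := isBase_of hQi hQk hr
  set A := ⋃₀ {A' | A' ⊆ P ∪ Q ∧ A'.encard = 2 * N.eRk A'} with hA
  have hAPQ : A ⊆ P ∪ Q := sUnion_subset fun A' hA' => hA'.1
  have hAt : A.encard = 2 * N.eRk A := tight_sUnion hP hQ (hPf.union hQf)
  obtain ⟨_, c1, c2, _⟩ := Pool.Agent.Lib.MP_2c7063_coT.tight_bases hP hQ hd hAPQ
    ((hPf.union hQf).subset hAPQ) hAt
  have hAeq : A = (A ∩ P) ∪ (A ∩ Q) := by
    rw [← inter_union_distrib_left, inter_eq_left.2 hAPQ]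
  have hgood : ∃ k x y, Good (N ↾ A) (A ∩ P) (A ∩ Q) k x y := by
    have := hN (A ∩ P) (A ∩ Q) (hPf.subset inter_subset_right)
      (hd.mono inter_subset_right inter_subset_right)
    rw [← hAeq] at this
    exact this c1 c2
  obtain ⟨x, y, hg⟩ := final (M := tr N k) (N := N) (fun J => tr_indep) bP bQ hd hPk hA
    (Or.inr (Or.inr hgood))
  refine ⟨x, y, hg.1, hg.2.1, hg.2.2.1, hg.2.2.2.1, fun i hi => ⟨?_, ?_⟩⟩
  · exact (tr_indep.1 (hg.2.2.2.2 i hi).1.indep).1
  · exact (tr_indep.1 (hg.2.2.2.2 i hi).2.indep).1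

end Pool.Agent.Lib.MP_2c7063_coU
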