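import Pool.Agent.Lib.MP_2c7063_coU.Union

/-!
# Strongly base orderable matroids
-/

namespace Pool.Agent.Lib.MP_2c7063_coU

open Set
open scoped Matroid Function
open Pool.Agent.Lib.MP_2c7063_coS (Good isBase_of indep_union_of')

variable {α : Type*}

/-- Strongly base orderable. -/
def Sbo (L : Matroid α) : Prop :=
  ∀ P Q : Set α, L.IsBase P → L.IsBase Q → ∃ σ : α → α, BijOn σ P Q ∧
    ∀ X ⊆ P, L.IsBase ((P \ X) ∪ σ '' X)

theorem exists_seq [Nonempty α] {P : Set α} (hP : P.Finite) :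
    ∃ (k : ℕ) (x : ℕ → α), InjOn x (Iio k) ∧ x '' Iio k = P := by
  classical
  obtain ⟨F, rfl⟩ := hP.exists_finset_coe
  refine ⟨F.card, fun i => if h : i < F.card then (F.equivFin.symm ⟨i, h⟩ : α)
    else Classical.arbitrary α, ?_, ?_⟩
  · intro i hi j hj hij
    simp only [mem_Iio] at hi hj
    simp only [dif_pos hi, dif_pos hj] at hij
    have := F.equivFin.symm.injective (Subtype.ext hij)
    exact congrArg Fin.val this
  · ext e
    constructor
    · rintro ⟨i, hi, rfl⟩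
      simp only [mem_Iio] at hi
      simp only [dif_pos hi]
      exact (F.equivFin.symm ⟨i, hi⟩).2
    · intro he
      refine ⟨F.equivFin ⟨e, he⟩, (F.equivFin ⟨e, he⟩).2, ?_⟩
      simp only [dif_pos (F.equivFin ⟨e, he⟩).2, Fin.eta, Equiv.symm_apply_apply]

theorem Ord.of_sbo [Nonempty α] {L : Matroid α} (h : Sbo L) (hf : L.E.Finite) : Ord L := by
  intro P Q hPf hd hP hQ
  have hPi := (Matroid.restrict_indep_iff.1 hP.indep).1
  have hQi := (Matroid.restrict_indep_iff.1 hQ.indep).1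
  have hPQE : P ∪ Q ⊆ L.E := union_subset hPi.subset_ground hQi.subset_ground
  have hb := (Matroid.isBase_restrict_iff hPQE).1 hP
  have hQP : Q ⊆ L.closure P := subset_union_right.trans hb.subset_closure
  obtain ⟨B, hB, hPB⟩ := hPi.exists_isBase_superset
  set Z := B \ P with hZ
  have hPZ : P ∪ Z = B := union_sdiff_cancel hPB
  have hZf : Z.Finite := hf.subset (sdiff_subset.trans hB.subset_ground)
  have hPZd : Disjoint P Z := disjoint_sdiff_right
  have hZQ : Disjoint Z Q := by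
    refine disjoint_left.2 fun e heZ heQ => ?_
    have h1 : L.Indep (insert e P) := hB.indep.subset (insert_subset heZ.1 hPB)
    have h2 := (hPi.insert_indep_iff_of_notMem heZ.2).1 h1
    exact h2.2 (hQP heQ)
  have hQZi : L.Indep (Q ∪ Z) := indep_union_of' hQi hQP hZf hPZd (by rw [hPZ]; exact hB.indep)
  obtain ⟨k, hk⟩ : ∃ k : ℕ, P.encard = k := ⟨P.ncard, (hPf.cast_ncard_eq).symm⟩
  have hk' : Q.encard = k := by rw [hQ.encard_eq_eRank, ← hP.encard_eq_eRank, hk]
  obtain ⟨z, hz⟩ : ∃ z : ℕ, Z.encard = z := ⟨Z.ncard, (hZf.cast_ncard_eq).symm⟩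
  have hBk : B.encard = ((k + z : ℕ) : ℕ∞) := by
    rw [← hPZ, encard_union_eq hPZd, hk, hz, Nat.cast_add]
  have hQZk : (Q ∪ Z).encard = ((k + z : ℕ) : ℕ∞) := by
    rw [encard_union_eq hZQ.symm, hk', hz, Nat.cast_add]
  have hLr : L.eRank = ((k + z : ℕ) : ℕ∞) := by rw [← hB.encard_eq_eRank, hBk]
  have hQZ : L.IsBase (Q ∪ Z) := isBase_of hQZi hQZk hLr
  obtain ⟨σ, hσ, hX⟩ := h B (Q ∪ Z) hB hQZ
  -- `σ` fixes `Z`
  have hfix : ∀ e ∈ Z, σ e = e := by
    intro e he
    obtain ⟨w, hw, hwe⟩ := hσ.surjOn (show e ∈ Q ∪ Z from Or.inr he)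
    by_cases hwe' : w = e
    · rw [← hwe']; rw [hwe'] at hwe ⊢; exact hwe
    · exfalso
      have h1 := hX {w} (singleton_subset_iff.2 hw)
      rw [image_singleton, hwe] at h1
      have h2 : (B \ {w}) ∪ {e} = B \ {w} := by
        rw [union_eq_left, singleton_subset_iff]
        exact ⟨he.1, fun h => hwe' (mem_singleton_iff.1 h).symm⟩
      rw [h2] at h1
      have h3 := h1.eq_of_subset_isBase hB sdiff_subset
      rw [← h3] at hw
      exact hw.2 rfl
  have hσP : ∀ e ∈ P, σ e ∈ Q := by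
    intro e he
    rcases hσ.mapsTo (hPB he) with h1 | h1
    · exact h1
    · exfalso
      have h2 : σ (σ e) = σ e := hfix _ h1
      have h3 : σ e = e := hσ.injOn h1.1 (hPB he) h2
      rw [h3] at h1
      exact h1.2 he
  have hPinj : InjOn σ P := hσ.injOn.mono hPB
  have hσeq : σ '' P = Q := by
    refine (hPf.image σ).eq_of_subset_of_encard_le (image_subset_iff.2 hσP) ?_
    rw [hPinj.encard_image, hk, hk']
  have win : ∀ X ⊆ P, L.Indep ((P \ X) ∪ σ '' X) := by
    intro X hXP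
    refine (hX X (hXP.trans hPB)).indep.subset (union_subset_union_left _ ?_)
    exact sdiff_subset_sdiff_left hPB
  obtain ⟨k₁, x, hx, hxP⟩ := exists_seq hPf
  refine ⟨k₁, x, fun i => σ (x i), Ser.good ?_ hd hP⟩
  have yim : ∀ i, (fun i => σ (x i)) '' Iio i = σ '' (x '' Iio i) := fun i => by
    rw [image_image]
  have hxi : ∀ i ≤ k₁, x '' Iio i ⊆ P := fun i hi => by
    rw [← hxP]; exact image_mono (Iio_subset_Iio hi)
  refine ⟨hx, hxP, ?_, ?_, fun i hi => ⟨?_, ?_⟩⟩
  · intro i hi j hj hij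
    exact hx hi hj (hPinj (hxi k₁ le_rfl (mem_image_of_mem x hi))
      (hxi k₁ le_rfl (mem_image_of_mem x hj)) hij)
  · rw [yim, hxP, hσeq]
  · rw [yim]
    refine Matroid.restrict_indep_iff.2 ⟨win _ (hxi i hi), union_subset_union sdiff_subset ?_⟩
    rintro _ ⟨e, he, rfl⟩
    exact hσP e (hxi i hi he)
  · rw [yim]
    have e1 : (Q \ σ '' (x '' Iio i)) ∪ x '' Iio i = (P \ (P \ x '' Iio i)) ∪
        σ '' (P \ x '' Iio i) := by
      rw [hPinj.image_sdiff_subset (hxi i hi), hσeq, sdiff_sdiff_cancel_left (hxi i hi), union_comm]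
    rw [e1]
    refine Matroid.restrict_indep_iff.2 ⟨win _ sdiff_subset, union_subset_union sdiff_subset ?_⟩
    rintro _ ⟨e, he, rfl⟩
    exact hσP e he.1

end Pool.Agent.Lib.MP_2c7063_coU
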