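import Pool.Agent.Lib.MP_2c7063_coU.Glue
import Pool.Agent.Lib.MP_2c7063_coT.Small

/-!
# Unions of matroids
-/

namespace Pool.Agent.Lib.MP_2c7063_coU

open Set
open scoped Matroid Function
open Pool.Agent.Lib.MP_2c7063_coS (Good Rep inc IsCycleMatroid isBase_of good_dual kum mrg)
open Pool.Agent.Lib.MP_2c7063_coT (small_rank)

variable {α V : Type*}

/-- Below `L` there is, for all disjoint independent sets `P`, `Q`, a matroid on `P ∪ Q` with `P`,
`Q` independent and the property `Ord`. -/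
def Low (L : Matroid α) : Prop :=
  ∀ P Q : Set α, P.Finite → Q.Finite → Disjoint P Q → L.Indep P → L.Indep Q →
    ∃ L' : Matroid α, L'.E = P ∪ Q ∧ L'.Indep P ∧ L'.Indep Q ∧ (∀ J, L'.Indep J → L.Indep J) ∧
      Ord L'

theorem Ord.low {L : Matroid α} (h : Ord L) : Low L := by
  intro P Q _ _ _ hP hQ
  exact ⟨L ↾ (P ∪ Q), Matroid.restrict_ground_eq,
    Matroid.restrict_indep_iff.2 ⟨hP, subset_union_left⟩,
    Matroid.restrict_indep_iff.2 ⟨hQ, subset_union_right⟩,
    fun J hJ => (Matroid.restrict_indep_iff.1 hJ).1, h.restrict _⟩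

theorem union_good [Nonempty α] {K : Matroid α} {n : ℕ} {L : Fin n → Matroid α}
    (hlow : ∀ i, Low (L i))
    (hK : ∀ f : Fin n → Set α, (∀ i, (L i).Indep (f i)) → (⋃ i, f i) ⊆ K.E → K.Indep (⋃ i, f i))
    {P Q : Set α} (hP : K.IsBase P) (hQ : K.IsBase Q) (hd : Disjoint P Q) {k : ℕ}
    (hk : P.encard = k) (fP : ∃ f : Fin n → Set α, (∀ i, (L i).Indep (f i)) ∧ P = ⋃ i, f i)
    (fQ : ∃ f : Fin n → Set α, (∀ i, (L i).Indep (f i)) ∧ Q = ⋃ i, f i) :
    ∃ x y, Good K P Q k x y := by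
  have hk' : Q.encard = k := by rw [hQ.encard_eq_eRank, ← hP.encard_eq_eRank, hk]
  have hPf : P.Finite := finite_of_encard_eq_coe hk
  have hQf : Q.Finite := finite_of_encard_eq_coe hk'
  -- disjoint parts
  have hpart : ∀ X : Set α, (∃ f : Fin n → Set α, (∀ i, (L i).Indep (f i)) ∧ X = ⋃ i, f i) →
      ∃ p : Fin n → Set α, (∀ i, (L i).Indep (p i)) ∧ (∀ i, p i ⊆ X) ∧ X ⊆ ⋃ i, p i ∧
        ∀ i j, i ≠ j → Disjoint (p i) (p j) := by
    rintro X ⟨f, hf, rfl⟩
    refine ⟨fun i => {e | e ∈ f i ∧ ∀ j < i, e ∉ f j}, fun i => (hf i).subset fun e he => he.1,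
      fun i e he => mem_iUnion.2 ⟨i, he.1⟩, ?_, ?_⟩
    · intro e he
      obtain ⟨i, hi⟩ := mem_iUnion.1 he
      have hwf : WellFounded (fun a b : Fin n => a < b) := wellFounded_lt
      have hne : {i | e ∈ f i}.Nonempty := ⟨i, hi⟩
      exact mem_iUnion.2 ⟨hwf.min _ hne, hwf.min_mem _ hne,
        fun j hj hjf => hwf.not_lt_min _ hjf hj⟩
    · intro i j hij
      refine disjoint_left.2 ?_
      rintro e ⟨h1, h2⟩ ⟨h3, h4⟩
      rcases lt_or_gt_of_ne hij with h | h
      · exact h4 i h h1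
      · exact h2 j h h3
  obtain ⟨p, hpi, hpP, hPp, hpd⟩ := hpart P fP
  obtain ⟨q, hqi, hqQ, hQq, hqd⟩ := hpart Q fQ
  have hpq : ∀ i j, Disjoint (p i) (q j) := fun i j => hd.mono (hpP i) (hqQ j)
  have hL' := fun i => hlow i (p i) (q i) (hPf.subset (hpP i)) (hQf.subset (hqQ i)) (hpq i i)
    (hpi i) (hqi i)
  choose L' hE hL'p hL'q hle hord using hL'
  have hdis : Pairwise (Disjoint on fun i => (L' i).E) := by
    intro i j hij
    change Disjoint (L' i).E (L' j).E
    rw [hE, hE]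
    refine disjoint_left.2 ?_
    rintro e (h1 | h1) (h2 | h2)
    · exact disjoint_left.1 (hpd i j hij) h1 h2
    · exact disjoint_left.1 (hpq i j) h1 h2
    · exact disjoint_left.1 (hpq j i) h2 h1
    · exact disjoint_left.1 (hqd i j hij) h1 h2
  set S := Matroid.disjointSigma L' hdis with hS
  have hSP : S.Indep P := by
    rw [hS, Matroid.disjointSigma_indep_iff]
    refine ⟨fun i => (hL'p i).subset ?_, ?_⟩
    · rintro e ⟨heP, heE⟩
      rw [hE] at heE
      rcases heE with h | h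
      · exact h
      · exact absurd (hqQ i h) (disjoint_left.1 hd heP)
    · intro e he
      obtain ⟨i, hi⟩ := mem_iUnion.1 (hPp he)
      exact mem_iUnion.2 ⟨i, by rw [hE]; exact Or.inl hi⟩
  have hSQ : S.Indep Q := by
    rw [hS, Matroid.disjointSigma_indep_iff]
    refine ⟨fun i => (hL'q i).subset ?_, ?_⟩
    · rintro e ⟨heQ, heE⟩
      rw [hE] at heE
      rcases heE with h | h
      · exact absurd heQ (disjoint_left.1 hd (hpP i h))
      · exact h
    · intro e he
      obtain ⟨i, hi⟩ := mem_iUnion.1 (hQq he)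
      exact mem_iUnion.2 ⟨i, by rw [hE]; exact Or.inr hi⟩
  have hSK : ∀ J, S.Indep J → K.Indep J := by
    intro J hJ
    rw [hS, Matroid.disjointSigma_indep_iff] at hJ
    have e1 : J = ⋃ i, J ∩ (L' i).E := by
      rw [← inter_iUnion]
      exact (inter_eq_left.2 hJ.2).symm
    rw [e1]
    refine hK _ (fun i => hle i _ (hJ.1 i)) ?_
    rw [← e1]
    intro e he
    obtain ⟨i, hi⟩ := mem_iUnion.1 (hJ.2 he)
    rw [hE] at hi
    rcases hi with h | h
    · exact hP.subset_ground (hpP i h)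
    · exact hQ.subset_ground (hqQ i h)
  obtain ⟨x, y, hx, hxP, hy, hyQ, hW⟩ := (sum_ord hdis hord).serial hSP hSQ hd hk hk'
  exact ⟨x, y, Ser.good ⟨hx, hxP, hy, hyQ, fun i hi => ⟨hSK _ (hW i hi).1, hSK _ (hW i hi).2⟩⟩
    hd hP⟩

/-! ### The classes -/

theorem Ord.of_cycle [Nonempty α] {L : Matroid α} (h : IsCycleMatroid L) : Ord L := by
  obtain ⟨V, u, v, hrep⟩ := h
  intro P Q hPf hd hP hQ
  obtain ⟨k, hk⟩ : ∃ k : ℕ, P.encard = k := ⟨P.ncard, (hPf.cast_ncard_eq).symm⟩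
  have hr : Rep (L ↾ (P ∪ Q)) u v := by
    intro J hJ
    rw [Matroid.restrict_ground_eq] at hJ
    by_cases hJE : J ⊆ L.E
    · rw [Matroid.restrict_indep_iff, and_iff_left hJ, hrep J hJE]
    · exfalso
      apply hJE
      refine hJ.trans (union_subset ?_ ?_)
      · exact (Matroid.restrict_indep_iff.1 hP.indep).1.subset_ground
      · exact (Matroid.restrict_indep_iff.1 hQ.indep).1.subset_ground
  obtain ⟨x, y, hg⟩ := kum k _ u v hr P Q hP hQ hd hk
  exact ⟨k, x, y, hg⟩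

theorem rep_delete {M : Matroid α} {u v : α → V} (h : Rep M u v) (e : α) :
    Rep (M ＼ {e}) u v := by
  intro J hJ
  rw [Matroid.delete_ground] at hJ
  rw [Matroid.delete_indep_iff, h J (hJ.trans sdiff_subset), and_iff_left]
  exact disjoint_singleton_right.2 fun he => (hJ he).2 rfl

theorem rep_contract_elem {M : Matroid α} {u v : α → V} (h : Rep M u v) (e : α) :
    ∃ u' v' : α → V, Rep (M ／ {e}) u' v' := by
  by_cases he : M.Indep {e}
  · exact ⟨_, _, h.contract he⟩
  · by_cases heE : e ∈ M.E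
    · have hl : {e} ⊆ M.loops := by
        rw [singleton_subset_iff]
        have : M.IsLoop e := by
          rw [← Matroid.singleton_not_indep heE]
          exact he
        exact this
      rw [Matroid.contract_eq_delete_of_subset_loops hl]
      exact ⟨u, v, rep_delete h e⟩
    · rw [Matroid.contractElem_eq_self heE]
      exact ⟨u, v, h⟩

theorem rep_contract {X : Set α} (hX : X.Finite) : ∀ (M : Matroid α) (u v : α → V), Rep M u v →
    ∃ u' v' : α → V, Rep (M ／ X) u' v' := by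
  induction X, hX using Set.Finite.induction_on with
  | empty => intro M u v h; exact ⟨u, v, by rw [Matroid.contract_empty]; exact h⟩
  | @insert e X _ _ ih =>
    intro M u v h
    obtain ⟨u', v', h'⟩ := rep_contract_elem h e
    obtain ⟨u'', v'', h''⟩ := ih _ u' v' h'
    refine ⟨u'', v'', ?_⟩
    rw [Matroid.contract_contract, singleton_union] at h''
    exact h''

theorem Ord.of_cocycle [Nonempty α] {L : Matroid α} (h : IsCycleMatroid L✶) (hf : L.E.Finite) :
    Ord L := by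
  obtain ⟨V, u, v, hrep⟩ := h
  intro P Q hPf hd hP hQ
  obtain ⟨k, hk⟩ : ∃ k : ℕ, P.encard = k := ⟨P.ncard, (hPf.cast_ncard_eq).symm⟩
  have hPQ : P ∪ Q ⊆ L.E := union_subset
    (Matroid.restrict_indep_iff.1 hP.indep).1.subset_ground
    (Matroid.restrict_indep_iff.1 hQ.indep).1.subset_ground
  obtain ⟨u', v', h'⟩ := rep_contract (hf.subset (sdiff_subset (s := L.E) (t := P ∪ Q))) _ u v hrep
  rw [← Matroid.dual_delete, Matroid.delete_compl hPQ] at h'
  have e1 : (L ↾ (P ∪ Q)).E = P ∪ Q := Matroid.restrict_ground_eq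
  have d1 : (L ↾ (P ∪ Q))✶.IsBase P := by
    rw [Matroid.dual_isBase_iff', e1]
    refine ⟨?_, subset_union_left⟩
    rw [union_sdiff_left, hd.symm.sdiff_eq_left]; exact hQ
  have d2 : (L ↾ (P ∪ Q))✶.IsBase Q := by
    rw [Matroid.dual_isBase_iff', e1]
    refine ⟨?_, subset_union_right⟩
    rw [union_sdiff_right, hd.sdiff_eq_left]; exact hP
  obtain ⟨x, y, hg⟩ := kum k _ u' v' h' P Q d1 d2 hd hk
  exact ⟨k, x, y, good_dual hd e1 hg⟩

theorem Ord.of_rank [Nonempty α] {L : Matroid α} (h : L.eRank ≤ 4) : Ord L := by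
  intro P Q hPf hd hP hQ
  obtain ⟨k, hk⟩ : ∃ k : ℕ, P.encard = k := ⟨P.ncard, (hPf.cast_ncard_eq).symm⟩
  have h4 : k ≤ 4 := by
    have h1 := (Matroid.restrict_indep_iff.1 hP.indep).1.encard_le_eRank.trans h
    rw [hk] at h1
    exact_mod_cast h1
  obtain ⟨x, y, hg⟩ := small_rank hP hQ hd hk h4
  exact ⟨k, x, y, hg⟩

/-- Matroids that arise from a graphic matroid by a bipartite graph. -/
theorem Low.of_induced {β : Type*} [Nonempty α] {L : Matroid α} {G : Matroid β} {Γ : α → β → Prop}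
    (hG : IsCycleMatroid G) (hL : ∀ J ⊆ L.E, L.Indep J ↔
      ∃ φ : α → β, (∀ e ∈ J, Γ e (φ e)) ∧ InjOn φ J ∧ G.Indep (φ '' J)) : Low L := by
  classical
  obtain ⟨V, u, v, hrep⟩ := hG
  intro P Q hPf hQf hd hP hQ
  obtain ⟨φ, hφ1, hφ2, hφ3⟩ := (hL P hP.subset_ground).1 hP
  obtain ⟨ψ, hψ1, hψ2, hψ3⟩ := (hL Q hQ.subset_ground).1 hQ
  set g : α → β := fun e => if e ∈ P then φ e else ψ e with hg
  have gP : ∀ e ∈ P, g e = φ e := fun e he => if_pos he
  have gQ : ∀ e ∈ Q, g e = ψ e := fun e he => if_neg (disjoint_right.1 hd he)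
  have iP : g '' P = φ '' P := image_congr gP
  have iQ : g '' Q = ψ '' Q := image_congr gQ
  have hgE : ∀ e ∈ P ∪ Q, g e ∈ G.E := by
    rintro e (he | he)
    · exact hφ3.subset_ground (iP ▸ mem_image_of_mem g he)
    · exact hψ3.subset_ground (iQ ▸ mem_image_of_mem g he)
  refine ⟨(G.comap g) ↾ (P ∪ Q), Matroid.restrict_ground_eq, ?_, ?_, ?_, Ord.of_cycle
    ⟨V, u ∘ g, v ∘ g, ?_⟩⟩
  · rw [Matroid.restrict_indep_iff, Matroid.comap_indep_iff, iP]
    exact ⟨⟨hφ3, hφ2.congr fun e he => (gP e he).symm⟩, subset_union_left⟩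
  · rw [Matroid.restrict_indep_iff, Matroid.comap_indep_iff, iQ]
    exact ⟨⟨hψ3, hψ2.congr fun e he => (gQ e he).symm⟩, subset_union_right⟩
  · intro J hJ
    rw [Matroid.restrict_indep_iff, Matroid.comap_indep_iff] at hJ
    obtain ⟨⟨h1, h2⟩, h3⟩ := hJ
    have hJE : J ⊆ L.E := h3.trans (union_subset hP.subset_ground hQ.subset_ground)
    refine (hL J hJE).2 ⟨g, fun e he => ?_, h2, h1⟩
    rcases h3 he with h | h
    · rw [gP e h]; exact hφ1 e h
    · rw [gQ e h]; exact hψ1 e h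
  · intro J hJ
    rw [Matroid.restrict_ground_eq] at hJ
    rw [Matroid.restrict_indep_iff, and_iff_left hJ, Matroid.comap_indep_iff]
    have hJE : g '' J ⊆ G.E := by
      rintro _ ⟨e, he, rfl⟩
      exact hgE e (hJ he)
    rw [hrep _ hJE]
    have e1 : inc (u ∘ g) (v ∘ g) = inc u v ∘ g := rfl
    rw [e1]
    constructor
    · rintro ⟨h1, h2⟩
      exact h1.comp_of_image h2
    · intro h
      refine ⟨h.image_of_comp, ?_⟩
      intro a ha b hb hab
      exact h.injOn ha hb (congrArg (inc u v) hab)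

end Pool.Agent.Lib.MP_2c7063_coU
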